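import Pool.Agent.Helper13.AG3.Goals
import Pool.Agent.Helper43.AG2.SOL

/-!
# AG++-SOL: groups in the class are solvable
-/

set_option autoImplicit false

namespace Pool.Agent.Helper43.AG3

universe u v

/-- A group with a homomorphism to a nilpotent group whose kernel is commutative is solvable. -/
theorem sol_hom {T : Type u} [Group T] {Q : Type v} [Group Q] (f : T →* Q)
    (hQ : Group.IsNilpotent Q) (h : ∀ x ∈ f.ker, ∀ y ∈ f.ker, x * y = y * x) :
    Group.IsSolvable T := by
  have := hQ
  have : Group.IsSolvable Q := inferInstance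
  have : Group.IsSolvable f.ker :=
    Group.isSolvable_of_comm (fun a b => Subtype.ext (h a a.2 b b.2))
  refine Group.isSolvable_of_ker_le_range f.ker.subtype f ?_
  rw [Subgroup.range_subtype]

/-- Abelian-by-nilpotent groups are solvable. -/
theorem sol_abn {T : Type u} [Group T] (M : Subgroup T) [M.Normal]
    (h : ∀ x ∈ M, ∀ y ∈ M, x * y = y * x) (hQ : Group.IsNilpotent (T ⧸ M)) :
    Group.IsSolvable T := by
  refine sol_hom (QuotientGroup.mk' M) hQ ?_
  rw [QuotientGroup.ker_mk']
  exact h

theorem sol : Helper13.AG3.SolStmt.{u} := by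
  intro G _ hG
  obtain ⟨T, _, f, -, hker, -, hT⟩ := hG
  have := hker
  have : Group.IsSolvable T := by
    rcases hT with hT | hT
    · exact AG2.sol_supersolvable T hT
    · obtain ⟨Q, _, g, hQ, hg⟩ := hT
      exact sol_hom g hQ hg
  refine Group.isSolvable_of_ker_le_range f.ker.subtype f ?_
  rw [Subgroup.range_subtype]

end Pool.Agent.Helper43.AG3
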